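import Pool.Agent.H64.K2.Plk2

/-!
# Boxes: families in linear coordinates

Window of length `2 ^ (-w)`, linear coordinates `L (g ω)` of the space, where `g` is a function of
the line, of the window and of the side information. Inside the boxes the lines are straight, with
positions and velocities in `[0, 1)`; the velocity of `F.box w L g` does not depend on `w`.
-/

set_option autoImplicit false

namespace Pool.KA

open Finset Real
open Pool.Agent.H49.Ent Pool.Agent.H32.Dense Pool.STK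

variable {m J : ℕ} {κ : Type}

/-- Linear coordinates of the space (additive along lines, injective). -/
structure Crd (m : ℕ) (κ : Type) where
  /-- the coordinates -/
  L : κ → (Fin m → ℝ) → Fin m → ℝ
  lin : ∀ k x y (t : ℝ) i, L k (fun j => x j + t * y j) i = L k x i + t * L k y i
  inj : ∀ k x y, L k x = L k y → x = y

/-- The cell of the velocity. -/
noncomputable def Fam.bvl (F : Fam m J) (C : Crd m κ) (g : F.Ω → κ) (ω : F.Ω) : Fin m → ℤ :=
  fl 0 (C.L (g ω) (F.d ω))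

/-- The cell of the position at the beginning of the window. -/
noncomputable def Fam.bcl (F : Fam m J) (w : ℕ) (C : Crd m κ) (g : F.Ω → κ) (ω : F.Ω) :
    Fin m → ℤ := fl w (C.L (g ω) (F.x1 w ω))

/-- The label of the box. -/
noncomputable def Fam.blab (F : Fam m J) (w : ℕ) (C : Crd m κ) (g : F.Ω → κ) (ω : F.Ω) :
    ((ℕ × κ) × ((Fin m → ℤ) × (Fin m → ℤ))) × F.ζ :=
  (((F.T1 w ω, g ω), (F.bcl w C g ω, F.bvl C g ω)), F.Z ω)

/-- The family inside the boxes. -/
noncomputable def Fam.box (F : Fam m J) (w : ℕ) (C : Crd m κ) (g : F.Ω → κ) :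
    Fam m (J - w) where
  Ω := F.Ω
  ζ := ((ℕ × κ) × ((Fin m → ℤ) × (Fin m → ℤ))) × F.ζ
  fin := F.fin
  p := F.p
  u := fun ω i => Int.fract (2 ^ w * C.L (g ω) (F.x1 w ω) i)
  d := fun ω i => Int.fract (C.L (g ω) (F.d ω) i)
  T := fun ω => F.T ω % 2 ^ (J - w)
  Z := F.blab w C g
  isLaw := F.isLaw
  dir := fun ω i => by
    rw [abs_of_nonneg (Int.fract_nonneg _)]
    exact (Int.fract_lt_one _).le
  tim := fun _ => Nat.mod_lt _ (by positivity)

/-- The cell of the position in the coordinates. -/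
noncomputable def Fam.bX (F : Fam m J) (C : Crd m κ) (g : F.Ω → κ) (j : ℕ) (ω : F.Ω) :
    Fin m → ℤ := fl j (C.L (g ω) (F.x ω))

/-- The coordinates expand at most by `b * 2 ^ lam`. -/
def Crd.Bd (C : Crd m κ) (lam : ℕ) (b : ℝ) : Prop :=
  ∀ k x y, (∀ j, |x j - y j| ≤ 1) → ∀ i, |C.L k x i - C.L k y i| ≤ b * 2 ^ lam

namespace Box

open Plk (fract_floor_inj floor_sub_lt floor_near abs_sub_lt_of_floor CH_vec_const)

/-- The plank coordinates. -/
noncomputable def plkC (lam : ℕ) (i0 : Fin m) : Crd m (Fin m → ℝ) where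
  L := fun z x => pco lam i0 z x
  lin := fun z x y t i => Plk.pco_add_mul lam i0 z x y t i
  inj := fun z x y h => Plk.pco_inj lam i0 z x y fun i => congrFun h i

/-! ### The line and the window are determined by the data of the box -/

theorem line_det (F : Fam m J) {w : ℕ} {C : Crd m κ} {g : F.Ω → κ} {ω ω' : F.Ω}
    (hl : (F.box w C g).l ω = (F.box w C g).l ω') (hZ : F.blab w C g ω = F.blab w C g ω') :
    F.l ω = F.l ω' ∧ F.T1 w ω = F.T1 w ω' ∧ g ω = g ω' ∧ F.Z ω = F.Z ω' := by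
  have e1 : (fun i => Int.fract (2 ^ w * C.L (g ω) (F.x1 w ω) i)) =
      fun i => Int.fract (2 ^ w * C.L (g ω') (F.x1 w ω') i) := (Prod.ext_iff.mp hl).1
  have e2 : (fun i => Int.fract (C.L (g ω) (F.d ω) i)) =
      fun i => Int.fract (C.L (g ω') (F.d ω') i) := (Prod.ext_iff.mp hl).2
  have e3 := (Prod.ext_iff.mp (Prod.ext_iff.mp hZ).1)
  have e4 : F.T1 w ω = F.T1 w ω' := (Prod.ext_iff.mp e3.1).1
  have e5 : g ω = g ω' := (Prod.ext_iff.mp e3.1).2
  have e6 : F.bcl w C g ω = F.bcl w C g ω' := (Prod.ext_iff.mp e3.2).1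
  have e7 : F.bvl C g ω = F.bvl C g ω' := (Prod.ext_iff.mp e3.2).2
  have e8 : F.Z ω = F.Z ω' := (Prod.ext_iff.mp hZ).2
  have hd : F.d ω = F.d ω' := by
    refine C.inj (g ω) _ _ (funext fun i => ?_)
    have h1 := congrFun e2 i
    have h2 := congrFun e7 i
    have h3 : ⌊2 ^ 0 * C.L (g ω) (F.d ω) i⌋ = ⌊2 ^ 0 * C.L (g ω') (F.d ω') i⌋ := h2
    rw [pow_zero, one_mul, one_mul] at h3
    have h4 := fract_floor_inj h1 h3
    rw [← e5] at h4
    exact h4
  have hx : F.x1 w ω = F.x1 w ω' := by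
    refine C.inj (g ω) _ _ (funext fun i => ?_)
    have h1 := congrFun e1 i
    have h2 := congrFun e6 i
    have h3 : ⌊2 ^ w * C.L (g ω) (F.x1 w ω) i⌋ = ⌊2 ^ w * C.L (g ω') (F.x1 w ω') i⌋ := h2
    have h4 := fract_floor_inj h1 h3
    rw [← e5] at h4
    exact mul_left_cancel₀ (by positivity) h4
  have hu : F.u ω = F.u ω' := by
    funext i
    have h1 := congrFun hx i
    unfold Fam.x1 at h1
    rw [e4, hd] at h1
    linarith
  exact ⟨Prod.ext hu hd, e4, e5, e8⟩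

/-- The label is a function of the line, the window and the side information, if `g` is. -/
theorem blab_det (F : Fam m J) {w : ℕ} {C : Crd m κ} {g : F.Ω → κ} {ω ω' : F.Ω}
    (hl : F.l ω = F.l ω') (hT : F.T1 w ω = F.T1 w ω') (hg : g ω = g ω') (hZ : F.Z ω = F.Z ω') :
    F.blab w C g ω = F.blab w C g ω' ∧ (F.box w C g).l ω = (F.box w C g).l ω' := by
  have hu : F.u ω = F.u ω' := (Prod.ext_iff.mp hl).1
  have hd : F.d ω = F.d ω' := (Prod.ext_iff.mp hl).2
  have hx : F.x1 w ω = F.x1 w ω' := by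
    funext i
    unfold Fam.x1
    rw [hu, hd, hT]
  constructor
  · unfold Fam.blab Fam.bcl Fam.bvl
    rw [hT, hg, hx, hd, hZ]
  · refine Prod.ext ?_ ?_
    · change (fun i => Int.fract (2 ^ w * C.L (g ω) (F.x1 w ω) i)) =
        fun i => Int.fract (2 ^ w * C.L (g ω') (F.x1 w ω') i)
      rw [hg, hx]
    · change (fun i => Int.fract (C.L (g ω) (F.d ω) i)) =
        fun i => Int.fract (C.L (g ω') (F.d ω') i)
      rw [hg, hd]

/-! ### Times -/

/-- The time digits of the box family. -/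
theorem T1_box (F : Fam m J) {w K : ℕ} (h : w + K ≤ J) (C : Crd m κ) (g : F.Ω → κ) (ω : F.Ω) :
    F.T1 (w + K) ω = 2 ^ K * F.T1 w ω + (F.box w C g).T1 K ω := by
  have e1 : (F.box w C g).T1 K ω = F.T ω % 2 ^ (J - w) / 2 ^ (J - w - K) := rfl
  have e2 : F.T1 (w + K) ω = F.T ω / 2 ^ (J - (w + K)) := rfl
  have e3 : F.T1 w ω = F.T ω / 2 ^ (J - w) := rfl
  have e4 : J - (w + K) = J - w - K := by omega
  have e5 : 2 ^ (J - w) = 2 ^ (J - w - K) * 2 ^ K := by
    rw [← pow_add]; congr 1; omega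
  rw [e1, e2, e3, e4]
  obtain ⟨A, hA⟩ : ∃ A, A = 2 ^ (J - w - K) := ⟨_, rfl⟩
  have hA0 : 0 < A := by rw [hA]; positivity
  rw [e5, ← hA]
  have h1 := Nat.div_add_mod (F.T ω) (A * 2 ^ K)
  have h2 : F.T ω = F.T ω % (A * 2 ^ K) + A * (2 ^ K * (F.T ω / (A * 2 ^ K))) := by
    rw [← mul_assoc]; omega
  calc F.T ω / A = (F.T ω % (A * 2 ^ K) + A * (2 ^ K * (F.T ω / (A * 2 ^ K)))) / A := by
        rw [← h2]
    _ = F.T ω % (A * 2 ^ K) / A + 2 ^ K * (F.T ω / (A * 2 ^ K)) := by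
        rw [Nat.add_mul_div_left _ _ hA0]
    _ = 2 ^ K * (F.T ω / (A * 2 ^ K)) + F.T ω % (A * 2 ^ K) / A := by ring

/-- The time deficit does not increase. -/
theorem box_Tm (F : Fam m J) {w : ℕ} (hw : w ≤ J) (C : Crd m κ) (g : F.Ω → κ)
    (hg : Det F.p (fun ω => (F.l ω, (F.T1 w ω, F.Z ω))) g) {e : ℝ} (he : F.Tm e) :
    (F.box w C g).Tm e := by
  have h0 := F.isLaw.nonneg
  unfold Fam.Tm at he ⊢
  have c1 := CH_le_add h0 F.T (F.T1 w) (fun ω => (F.l ω, F.Z ω))
  have d1 : CH F.p (F.T1 w) (fun ω => (F.l ω, F.Z ω)) ≤ w * Real.log 2 := by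
    refine (CH_le_card h0 F.isLaw.sum_one (F.T1 w) _ (fun _ => Finset.range (2 ^ w)) ?_).trans ?_
    · intro ω _
      rw [Finset.mem_range]
      unfold Fam.T1
      rw [Nat.div_lt_iff_lt_mul (by positivity), ← pow_add]
      have h1 := F.tim ω
      have e1 : w + (J - w) = J := by omega
      rwa [e1]
    · rw [Finset.card_range]
      push_cast
      rw [Ex_const F.isLaw.sum_one, Real.log_pow]
  have d2 : CH F.p F.T (fun ω => (F.T1 w ω, (F.l ω, F.Z ω))) =
      CH (F.box w C g).p (F.box w C g).T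
        (fun ω => ((F.box w C g).l ω, (F.box w C g).Z ω)) := by
    refine CH_congr h0 ?_ ?_ ?_ ?_
    · intro ω ω' _ _ h
      have h1 := (Prod.ext_iff.mp h).1
      simp only at h1
      change F.T ω % 2 ^ (J - w) = F.T ω' % 2 ^ (J - w)
      rw [h1]
    · intro ω ω' _ _ h
      have h1 : F.T ω % 2 ^ (J - w) = F.T ω' % 2 ^ (J - w) := (Prod.ext_iff.mp h).1
      have h2 := (Prod.ext_iff.mp h).2
      have h3 : (F.box w C g).l ω = (F.box w C g).l ω' := (Prod.ext_iff.mp h2).1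
      have h4 : F.blab w C g ω = F.blab w C g ω' := (Prod.ext_iff.mp h2).2
      have h5 := (line_det F h3 h4).2.1
      rw [Plk.T_split F w ω, Plk.T_split F w ω', h1, h5]
    · intro ω ω' hω hω' h
      have h1 := (Prod.ext_iff.mp h)
      have h2 := (Prod.ext_iff.mp h1.2)
      simp only at h1 h2
      have h3 := hg ω ω' hω hω' (Prod.ext h2.1 (Prod.ext h1.1 h2.2))
      have h4 := blab_det F (C := C) h2.1 h1.1 h3 h2.2
      exact Prod.ext h4.2 h4.1
    · intro ω ω' _ _ h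
      have h3 : (F.box w C g).l ω = (F.box w C g).l ω' := (Prod.ext_iff.mp h).1
      have h4 : F.blab w C g ω = F.blab w C g ω' := (Prod.ext_iff.mp h).2
      obtain ⟨a1, a2, a3, a4⟩ := line_det F h3 h4
      exact Prod.ext a2 (Prod.ext a1 a4)
  have d3 : ((J - w : ℕ) : ℝ) * Real.log 2 = J * Real.log 2 - w * Real.log 2 := by
    rw [Nat.cast_sub hw]
    ring
  rw [← d2, d3]
  linarith

/-! ### Positions -/

theorem box_t (F : Fam m J) {w : ℕ} (hw : w ≤ J) (C : Crd m κ) (g : F.Ω → κ) (ω : F.Ω) :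
    F.t ω = (F.T1 w ω : ℝ) / 2 ^ w + (F.box w C g).t ω * (2 ^ w)⁻¹ := by
  have h := Win.time_split J w (F.T ω) hw
  unfold Fam.t Fam.T1
  exact h

theorem bvl_eq (F : Fam m J) (w : ℕ) (C : Crd m κ) (g : F.Ω → κ) (ω : F.Ω) (i : Fin m) :
    C.L (g ω) (F.d ω) i = F.bvl C g ω i + (F.box w C g).d ω i := by
  have e1 : (F.box w C g).d ω i = Int.fract (C.L (g ω) (F.d ω) i) := rfl
  have e2 : F.bvl C g ω i = ⌊2 ^ 0 * C.L (g ω) (F.d ω) i⌋ := rfl
  rw [e1, e2, pow_zero, one_mul]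
  exact (Int.floor_add_fract _).symm

theorem bcl_eq (F : Fam m J) (w : ℕ) (C : Crd m κ) (g : F.Ω → κ) (ω : F.Ω) (i : Fin m) :
    2 ^ w * C.L (g ω) (F.x1 w ω) i = F.bcl w C g ω i + (F.box w C g).u ω i := by
  have e1 : (F.box w C g).u ω i = Int.fract (2 ^ w * C.L (g ω) (F.x1 w ω) i) := rfl
  have e2 : F.bcl w C g ω i = ⌊2 ^ w * C.L (g ω) (F.x1 w ω) i⌋ := rfl
  rw [e1, e2]
  exact (Int.floor_add_fract _).symm

/-- The positions in the box. -/
theorem box_x (F : Fam m J) {w : ℕ} (hw : w ≤ J) (C : Crd m κ) (g : F.Ω → κ) (ω : F.Ω)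
    (i : Fin m) : 2 ^ w * C.L (g ω) (F.x ω) i = (F.box w C g).x ω i + F.bcl w C g ω i +
      (F.box w C g).t ω * F.bvl C g ω i := by
  have h1 : F.x ω = fun j => F.x1 w ω j + ((F.box w C g).t ω * (2 ^ w)⁻¹) * F.d ω j := by
    funext j
    unfold Fam.x Fam.x1
    rw [box_t F hw C g ω]
    ring
  have h2 : (F.box w C g).x ω i = (F.box w C g).u ω i +
    (F.box w C g).t ω * (F.box w C g).d ω i := rfl
  rw [h1, C.lin, mul_add, bcl_eq, bvl_eq F w, h2]
  have h3 : (2 : ℝ) ^ w ≠ 0 := by positivity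
  field_simp
  ring

theorem u_mem (F : Fam m J) (w : ℕ) (C : Crd m κ) (g : F.Ω → κ) (ω : F.Ω) (i : Fin m) :
    0 ≤ (F.box w C g).u ω i ∧ (F.box w C g).u ω i < 1 :=
  ⟨Int.fract_nonneg _, Int.fract_lt_one _⟩

theorem d_mem (F : Fam m J) (w : ℕ) (C : Crd m κ) (g : F.Ω → κ) (ω : F.Ω) (i : Fin m) :
    0 ≤ (F.box w C g).d ω i ∧ (F.box w C g).d ω i < 1 :=
  ⟨Int.fract_nonneg _, Int.fract_lt_one _⟩

theorem t_mem (F : Fam m J) (w : ℕ) (C : Crd m κ) (g : F.Ω → κ) (ω : F.Ω) :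
    0 ≤ (F.box w C g).t ω ∧ (F.box w C g).t ω < 1 := by
  unfold Fam.t
  have h := (F.box w C g).tim ω
  constructor
  · positivity
  · rw [div_lt_one (by positivity)]
    exact_mod_cast h

theorem x_mem (F : Fam m J) (w : ℕ) (C : Crd m κ) (g : F.Ω → κ) (ω : F.Ω) (i : Fin m) :
    0 ≤ (F.box w C g).x ω i ∧ (F.box w C g).x ω i < 2 := by
  have h1 := u_mem F w C g ω i
  have h2 := d_mem F w C g ω i
  have h3 := t_mem F w C g ω
  have h4 : (F.box w C g).x ω i = (F.box w C g).u ω i +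
    (F.box w C g).t ω * (F.box w C g).d ω i := rfl
  have h5 : (F.box w C g).t ω * (F.box w C g).d ω i ≤ 1 * 1 :=
    mul_le_mul h3.2.le h2.2.le h2.1 zero_le_one
  have h6 := mul_nonneg h3.1 h2.1
  rw [h4]
  constructor
  · linarith
  · linarith

/-- Nested cells. -/
theorem bcl_add (F : Fam m J) {w K : ℕ} (h : w + K ≤ J) (C : Crd m κ) (g : F.Ω → κ) (ω : F.Ω)
    (i : Fin m) : F.bcl (w + K) C g ω i = fl K ((F.box w C g).x1 K ω) i +
      2 ^ K * F.bcl w C g ω i + (F.box w C g).T1 K ω * F.bvl C g ω i := by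
  have e1 : F.bcl (w + K) C g ω i =
    ⌊2 ^ (w + K) * C.L (g ω) (F.x1 (w + K) ω) i⌋ := rfl
  have e2 : fl K ((F.box w C g).x1 K ω) i =
    ⌊2 ^ K * ((F.box w C g).u ω i + ((F.box w C g).T1 K ω : ℝ) / 2 ^ K *
      (F.box w C g).d ω i)⌋ := rfl
  have e3 : F.x1 (w + K) ω = fun j => F.x1 w ω j +
      (((F.box w C g).T1 K ω : ℝ) / 2 ^ (w + K)) * F.d ω j := by
    funext j
    unfold Fam.x1
    rw [T1_box F h C g ω]
    push_cast
    have h2 : (2 : ℝ) ^ w ≠ 0 := by positivity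
    have h3 : (2 : ℝ) ^ K ≠ 0 := by positivity
    rw [pow_add]
    field_simp
    ring
  have e4 : (2 : ℝ) ^ (w + K) * C.L (g ω) (F.x1 (w + K) ω) i =
      2 ^ K * ((F.box w C g).u ω i + ((F.box w C g).T1 K ω : ℝ) / 2 ^ K *
      (F.box w C g).d ω i) + ((2 ^ K * F.bcl w C g ω i +
        (F.box w C g).T1 K ω * F.bvl C g ω i : ℤ) : ℝ) := by
    rw [e3, C.lin, bvl_eq F w]
    have h1 := bcl_eq F w C g ω i
    have h2 : (2 : ℝ) ^ w ≠ 0 := by positivity
    have h3 : (2 : ℝ) ^ K ≠ 0 := by positivity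
    have h4 : C.L (g ω) (F.x1 w ω) i =
        (F.bcl w C g ω i + (F.box w C g).u ω i) / 2 ^ w := by
      rw [← h1]; field_simp
    rw [h4, pow_add]
    push_cast
    field_simp
    ring
  rw [e1, e4, Int.floor_add_intCast, e2]
  ring

/-- The cell of the position at the time of the sample and at the beginning of its window. -/
theorem X_cell (F : Fam m J) {w K : ℕ} (h : w + K ≤ J) (C : Crd m κ) (g : F.Ω → κ) (ω : F.Ω)
    (i : Fin m) : fl K ((F.box w C g).x1 K ω) i ≤ (F.box w C g).X K ω i ∧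
      (F.box w C g).X K ω i ≤ fl K ((F.box w C g).x1 K ω) i + 1 := by
  have e1 : (F.box w C g).X K ω i = ⌊2 ^ K * ((F.box w C g).u ω i +
    (F.box w C g).t ω * (F.box w C g).d ω i)⌋ := rfl
  have e2 : fl K ((F.box w C g).x1 K ω) i =
    ⌊2 ^ K * ((F.box w C g).u ω i + ((F.box w C g).T1 K ω : ℝ) / 2 ^ K *
      (F.box w C g).d ω i)⌋ := rfl
  have hT := Pool.KSAT.T1_real (F.box w C g) (g := K) (by omega) ω
  have hd := d_mem F w C g ω i
  obtain ⟨s, hs⟩ : ∃ s, s = 2 ^ K * (F.box w C g).t ω - (F.box w C g).T1 K ω := ⟨_, rfl⟩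
  rw [← hs] at hT
  have e3 : (2 : ℝ) ^ K * ((F.box w C g).u ω i +
      (F.box w C g).t ω * (F.box w C g).d ω i) =
      2 ^ K * ((F.box w C g).u ω i + ((F.box w C g).T1 K ω : ℝ) / 2 ^ K *
      (F.box w C g).d ω i) + s * (F.box w C g).d ω i := by
    rw [hs]
    have h3 : (2 : ℝ) ^ K ≠ 0 := by positivity
    field_simp
    ring
  have h0 : 0 ≤ s * (F.box w C g).d ω i := mul_nonneg hT.1 hd.1
  have h1 : s * (F.box w C g).d ω i < 1 := by nlinarith [hT.1, hT.2, hd.1, hd.2]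
  rw [e1, e2, e3]
  constructor
  · exact Int.floor_le_floor (by linarith)
  · rw [← Int.floor_add_one]
    exact Int.floor_le_floor (by linarith)

/-! ### Labels -/

/-- The cell of the box family is a function of the line, the window, `g` and the side
information. -/
theorem c_det (F : Fam m J) {w K : ℕ} {C : Crd m κ} {g : F.Ω → κ} {ω ω' : F.Ω}
    (hJ : w + K ≤ J) (hl : F.l ω = F.l ω') (hT : F.T1 (w + K) ω = F.T1 (w + K) ω')
    (hg : g ω = g ω') (hZ : F.Z ω = F.Z ω') :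
    (F.box w C g).c K ω = (F.box w C g).c K ω' := by
  have h1 : F.T1 w ω = F.T1 w ω' := by
    rw [Pool.KSAT.T1_div F hJ ω, Pool.KSAT.T1_div F hJ ω', hT]
  have h2 := blab_det F (C := C) hl h1 hg hZ
  have h3 : (F.box w C g).T1 K ω = (F.box w C g).T1 K ω' := by
    have c1 := T1_box F hJ C g ω
    have c2 := T1_box F hJ C g ω'
    rw [hT, h1] at c1
    omega
  have h4 : (F.box w C g).u ω = (F.box w C g).u ω' := (Prod.ext_iff.mp h2.2).1
  have h5 : (F.box w C g).d ω = (F.box w C g).d ω' := (Prod.ext_iff.mp h2.2).2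
  have h6 : (F.box w C g).x1 K ω = (F.box w C g).x1 K ω' := by
    funext i
    unfold Fam.x1
    rw [h3, h4, h5]
  have h7 : (F.box w C g).Z ω = (F.box w C g).Z ω' := h2.1
  unfold Fam.c
  rw [h3, h6, h7]

/-- The cell of the box family is the pair of the labels of the two windows. -/
theorem c_iff (F : Fam m J) {w K : ℕ} {C : Crd m κ} {g : F.Ω → κ} {ω ω' : F.Ω}
    (hJ : w + K ≤ J) : (F.box w C g).c K ω = (F.box w C g).c K ω' ↔
      F.blab (w + K) C g ω = F.blab (w + K) C g ω' ∧ F.blab w C g ω = F.blab w C g ω' := by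
  have c1 := T1_box F hJ C g ω
  have c2 := T1_box F hJ C g ω'
  have d1 := bcl_add F hJ C g ω
  have d2 := bcl_add F hJ C g ω'
  constructor
  · intro h
    have h1 : (F.box w C g).T1 K ω = (F.box w C g).T1 K ω' :=
      (Prod.ext_iff.mp (Prod.ext_iff.mp h).1).1
    have h2 : fl K ((F.box w C g).x1 K ω) = fl K ((F.box w C g).x1 K ω') :=
      (Prod.ext_iff.mp (Prod.ext_iff.mp h).1).2
    have h3 : F.blab w C g ω = F.blab w C g ω' := (Prod.ext_iff.mp h).2
    have h4 := Prod.ext_iff.mp h3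
    have h5 := Prod.ext_iff.mp h4.1
    have b0 : F.T1 w ω = F.T1 w ω' := (Prod.ext_iff.mp h5.1).1
    have b1 : g ω = g ω' := (Prod.ext_iff.mp h5.1).2
    have b2 : F.bcl w C g ω = F.bcl w C g ω' := (Prod.ext_iff.mp h5.2).1
    have b3 : F.bvl C g ω = F.bvl C g ω' := (Prod.ext_iff.mp h5.2).2
    have b4 : F.Z ω = F.Z ω' := h4.2
    refine ⟨?_, h3⟩
    have e1 : F.T1 (w + K) ω = F.T1 (w + K) ω' := by rw [c1, c2, b0, h1]
    have e2 : F.bcl (w + K) C g ω = F.bcl (w + K) C g ω' := by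
      funext i
      rw [d1 i, d2 i, h2, b2, h1, b3]
    unfold Fam.blab
    rw [e1, b1, e2, b3, b4]
  · rintro ⟨h, h3⟩
    have h4 := Prod.ext_iff.mp h3
    have h5 := Prod.ext_iff.mp h4.1
    have b0 : F.T1 w ω = F.T1 w ω' := (Prod.ext_iff.mp h5.1).1
    have b2 : F.bcl w C g ω = F.bcl w C g ω' := (Prod.ext_iff.mp h5.2).1
    have b3 : F.bvl C g ω = F.bvl C g ω' := (Prod.ext_iff.mp h5.2).2
    have h6 := Prod.ext_iff.mp (Prod.ext_iff.mp h).1
    have a0 : F.T1 (w + K) ω = F.T1 (w + K) ω' := (Prod.ext_iff.mp h6.1).1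
    have a2 : F.bcl (w + K) C g ω = F.bcl (w + K) C g ω' := (Prod.ext_iff.mp h6.2).1
    have e1 : (F.box w C g).T1 K ω = (F.box w C g).T1 K ω' := by
      rw [a0, b0] at c1
      omega
    have e2 : fl K ((F.box w C g).x1 K ω) = fl K ((F.box w C g).x1 K ω') := by
      funext i
      have f1 := d1 i
      have f2 := d2 i
      rw [a2, b2, e1, b3] at f1
      linarith
    have e3 : (F.box w C g).Z ω = (F.box w C g).Z ω' := h3
    unfold Fam.c
    rw [e1, e2, e3]

/-- The velocity block is the same variable for all windows. -/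
theorem D_eq (F : Fam m J) (w w' K : ℕ) (C : Crd m κ) (g : F.Ω → κ) :
    (F.box w C g).D K = (F.box w' C g).D K := rfl

/-- The position in the box is a function of the exact point and the label. -/
theorem pt_det (F : Fam m J) {w : ℕ} (hw : w ≤ J) {C : Crd m κ} {g : F.Ω → κ} {ω ω' : F.Ω}
    (hT : F.T ω = F.T ω') (hx : F.x ω = F.x ω') (hb : F.blab w C g ω = F.blab w C g ω') :
    (F.box w C g).T ω = (F.box w C g).T ω' ∧ (F.box w C g).x ω = (F.box w C g).x ω' := by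
  have e1 : (F.box w C g).T ω = (F.box w C g).T ω' := by
    change F.T ω % 2 ^ (J - w) = F.T ω' % 2 ^ (J - w)
    rw [hT]
  refine ⟨e1, ?_⟩
  have e2 : (F.box w C g).t ω = (F.box w C g).t ω' := by
    unfold Fam.t
    rw [e1]
  have h5 := Prod.ext_iff.mp (Prod.ext_iff.mp hb).1
  have b1 : g ω = g ω' := (Prod.ext_iff.mp h5.1).2
  have b2 : F.bcl w C g ω = F.bcl w C g ω' := (Prod.ext_iff.mp h5.2).1
  have b3 : F.bvl C g ω = F.bvl C g ω' := (Prod.ext_iff.mp h5.2).2
  funext i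
  have f1 := box_x F hw C g ω i
  have f2 := box_x F hw C g ω' i
  rw [hx, b1, b2, b3, e2] at f1
  linarith

/-- The exact point is a function of the position in the box and the label. -/
theorem pt_det' (F : Fam m J) {w : ℕ} (hw : w ≤ J) {C : Crd m κ} {g : F.Ω → κ} {ω ω' : F.Ω}
    (hT : (F.box w C g).T ω = (F.box w C g).T ω') (hx : (F.box w C g).x ω = (F.box w C g).x ω')
    (hb : F.blab w C g ω = F.blab w C g ω') : F.T ω = F.T ω' ∧ F.x ω = F.x ω' := by
  have hT' : F.T ω % 2 ^ (J - w) = F.T ω' % 2 ^ (J - w) := hT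
  have h5 := Prod.ext_iff.mp (Prod.ext_iff.mp hb).1
  have b0 : F.T1 w ω = F.T1 w ω' := (Prod.ext_iff.mp h5.1).1
  have b1 : g ω = g ω' := (Prod.ext_iff.mp h5.1).2
  have b2 : F.bcl w C g ω = F.bcl w C g ω' := (Prod.ext_iff.mp h5.2).1
  have b3 : F.bvl C g ω = F.bvl C g ω' := (Prod.ext_iff.mp h5.2).2
  have e2 : (F.box w C g).t ω = (F.box w C g).t ω' := by
    unfold Fam.t
    rw [hT]
  constructor
  · rw [Plk.T_split F w ω, Plk.T_split F w ω', b0, hT']
  · refine C.inj (g ω) _ _ (funext fun i => ?_)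
    have f1 := box_x F hw C g ω i
    have f2 := box_x F hw C g ω' i
    rw [← b1] at f2
    have f3 : 2 ^ w * C.L (g ω) (F.x ω) i = 2 ^ w * C.L (g ω) (F.x ω') i := by
      rw [f1, f2, hx, b2, b3, e2]
    exact mul_left_cancel₀ (by positivity) f3

/-- The label has boundedly many values at an exact point. -/
theorem blab_near (F : Fam m J) {w : ℕ} (hw : w ≤ J) {C : Crd m κ} {g : F.Ω → κ} {ω ω' : F.Ω}
    (hT : F.T ω = F.T ω') (hg : g ω = g ω') {c c' : ℝ}
    (hd : ∀ i, |C.L (g ω) (F.d ω) i - C.L (g ω) (F.d ω') i| ≤ c)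
    (hx : ∀ i, |2 ^ w * C.L (g ω) (F.x ω) i - 2 ^ w * C.L (g ω) (F.x ω') i| ≤ c')
    (i : Fin m) :
    |((F.bvl C g ω i - F.bvl C g ω' i : ℤ) : ℝ)| ≤ c + 1 ∧
      |((F.bcl w C g ω i - F.bcl w C g ω' i : ℤ) : ℝ)| ≤ c + c' + 1 := by
  have e2 : (F.box w C g).t ω = (F.box w C g).t ω' := by
    change ((F.T ω % 2 ^ (J - w) : ℕ) : ℝ) / 2 ^ (J - w) =
      ((F.T ω' % 2 ^ (J - w) : ℕ) : ℝ) / 2 ^ (J - w)
    rw [hT]
  have key : ∀ ω'', 2 ^ w * C.L (g ω'') (F.x1 w ω'') i =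
      2 ^ w * C.L (g ω'') (F.x ω'') i -
        (F.box w C g).t ω'' * C.L (g ω'') (F.d ω'') i := by
    intro ω''
    have f1 := box_x F hw C g ω'' i
    have f2 := bcl_eq F w C g ω'' i
    have f3 := bvl_eq F w C g ω'' i
    have f4 : (F.box w C g).x ω'' i = (F.box w C g).u ω'' i +
      (F.box w C g).t ω'' * (F.box w C g).d ω'' i := rfl
    rw [f1, f2, f3, f4]
    ring
  have ht := t_mem F w C g ω'
  constructor
  · have e1 : F.bvl C g ω i = ⌊2 ^ 0 * C.L (g ω) (F.d ω) i⌋ := rfl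
    have e3 : F.bvl C g ω' i = ⌊2 ^ 0 * C.L (g ω') (F.d ω') i⌋ := rfl
    rw [e1, e3]
    refine floor_sub_lt ?_
    rw [pow_zero, one_mul, one_mul, ← hg]
    exact hd i
  · have e1 : F.bcl w C g ω i = ⌊2 ^ w * C.L (g ω) (F.x1 w ω) i⌋ := rfl
    have e3 : F.bcl w C g ω' i = ⌊2 ^ w * C.L (g ω') (F.x1 w ω') i⌋ := rfl
    rw [e1, e3]
    refine floor_sub_lt ?_
    rw [key ω, key ω', ← hg, e2]
    have h1 : 2 ^ w * C.L (g ω) (F.x ω) i -
        (F.box w C g).t ω' * C.L (g ω) (F.d ω) i -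
        (2 ^ w * C.L (g ω) (F.x ω') i -
        (F.box w C g).t ω' * C.L (g ω) (F.d ω') i) =
        (2 ^ w * C.L (g ω) (F.x ω) i - 2 ^ w * C.L (g ω) (F.x ω') i) -
        (F.box w C g).t ω' * (C.L (g ω) (F.d ω) i - C.L (g ω) (F.d ω') i) := by ring
    rw [h1]
    have k1 := abs_sub (2 ^ w * C.L (g ω) (F.x ω) i - 2 ^ w * C.L (g ω) (F.x ω') i)
      ((F.box w C g).t ω' * (C.L (g ω) (F.d ω) i - C.L (g ω) (F.d ω') i))
    rw [abs_mul, abs_of_nonneg ht.1] at k1
    have h2 := hd i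
    have h3 := abs_nonneg (C.L (g ω) (F.d ω) i - C.L (g ω) (F.d ω') i)
    have h4 := hx i
    nlinarith [ht.1, ht.2]

/-! ### Entropy forms -/

theorem split_lab (F : Fam m J) {w : ℕ} {C : Crd m κ} {g : F.Ω → κ} {ω ω' : F.Ω}
    (h : F.blab w C g ω = F.blab w C g ω') : F.T1 w ω = F.T1 w ω' ∧ g ω = g ω' ∧
      F.bcl w C g ω = F.bcl w C g ω' ∧ F.bvl C g ω = F.bvl C g ω' ∧ F.Z ω = F.Z ω' := by
  have h4 := Prod.ext_iff.mp h
  have h5 := Prod.ext_iff.mp h4.1
  exact ⟨(Prod.ext_iff.mp h5.1).1, (Prod.ext_iff.mp h5.1).2, (Prod.ext_iff.mp h5.2).1,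
    (Prod.ext_iff.mp h5.2).2, h4.2⟩

/-- (C1) The position in the box given the labels of the two windows. -/
theorem CH_X_le (F : Fam m J) {w K : ℕ} (h : w + K ≤ J) (C : Crd m κ) (g : F.Ω → κ) :
    CH F.p ((F.box w C g).X K) (fun ω => (F.blab (w + K) C g ω, F.blab w C g ω)) ≤
      m * Real.log 3 := by
  have key := CH_vec_const F.isLaw ((F.box w C g).X K)
    (fun ω => (F.blab (w + K) C g ω, F.blab w C g ω)) (c := 1) ?_
  · norm_num at key
    exact key
  · intro ω ω' _ _ hW i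
    obtain ⟨a1, -, a2, -, -⟩ := split_lab F (Prod.ext_iff.mp hW).1
    obtain ⟨b1, -, b2, b3, -⟩ := split_lab F (Prod.ext_iff.mp hW).2
    have c1 := T1_box F h C g ω
    have c2 := T1_box F h C g ω'
    have c3 : (F.box w C g).T1 K ω = (F.box w C g).T1 K ω' := by
      rw [a1, b1] at c1
      omega
    have d1 := bcl_add F h C g ω i
    have d2 := bcl_add F h C g ω' i
    rw [a2, b2, b3, c3] at d1
    have d3 : fl K ((F.box w C g).x1 K ω) i = fl K ((F.box w C g).x1 K ω') i := by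
      linarith
    have f1 := X_cell F h C g ω i
    have f2 := X_cell F h C g ω' i
    rw [d3] at f1
    have f3 : |(F.box w C g).X K ω i - (F.box w C g).X K ω' i| ≤ 1 := by
      rw [abs_le]
      constructor <;> linarith [f1.1, f1.2, f2.1, f2.2]
    exact_mod_cast f3

/-- (C2) The label of the shorter window given the position in the box. -/
theorem CH_bcl_le (F : Fam m J) {w K : ℕ} (h : w + K ≤ J) (C : Crd m κ) (g : F.Ω → κ) :
    CH F.p (F.blab (w + K) C g)
      (fun ω => ((F.box w C g).X K ω, (F.box w C g).T1 K ω, F.blab w C g ω)) ≤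
        m * Real.log 3 := by
  have h0 := F.isLaw.nonneg
  have key := CH_vec_const F.isLaw (F.bcl (w + K) C g)
    (fun ω => ((F.box w C g).X K ω, (F.box w C g).T1 K ω, F.blab w C g ω)) (c := 1) ?_
  · norm_num at key
    refine le_trans ?_ key
    refine CH_mono_left h0 ?_
    intro ω ω' _ _ hh
    have a1 : F.bcl (w + K) C g ω = F.bcl (w + K) C g ω' := (Prod.ext_iff.mp hh).1
    have h2 := (Prod.ext_iff.mp (Prod.ext_iff.mp hh).2).2
    have c3 : (F.box w C g).T1 K ω = (F.box w C g).T1 K ω' := (Prod.ext_iff.mp h2).1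
    obtain ⟨b1, b2, -, b3, b4⟩ := split_lab F (Prod.ext_iff.mp h2).2
    have c4 : F.T1 (w + K) ω = F.T1 (w + K) ω' := by
      rw [T1_box F h C g ω, T1_box F h C g ω', b1, c3]
    unfold Fam.blab
    rw [c4, b2, a1, b3, b4]
  · intro ω ω' _ _ hW i
    have a1 := (Prod.ext_iff.mp hW).1
    have h2 := (Prod.ext_iff.mp (Prod.ext_iff.mp hW).2)
    simp only at a1 h2
    obtain ⟨-, -, b2, b3, -⟩ := split_lab F h2.2
    have d1 := bcl_add F h C g ω i
    have d2 := bcl_add F h C g ω' i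
    rw [b2, b3, h2.1] at d1
    have f1 := X_cell F h C g ω i
    have f2 := X_cell F h C g ω' i
    rw [a1] at f1
    have f3 : |F.bcl (w + K) C g ω i - F.bcl (w + K) C g ω' i| ≤ 1 := by
      rw [d1, d2, abs_le]
      constructor <;> linarith [f1.1, f1.2, f2.1, f2.2]
    exact_mod_cast f3

/-- (C3) The labels are nested. -/
theorem CH_blab_nest (F : Fam m J) {w K : ℕ} (h : w + K ≤ J) (C : Crd m κ) (g : F.Ω → κ) :
    CH F.p (F.blab w C g) (F.blab (w + K) C g) ≤ m * Real.log 5 := by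
  have h0 := F.isLaw.nonneg
  have hT1 : ∀ ω, F.T1 w ω = F.T1 (w + K) ω / 2 ^ K := fun ω => Pool.KSAT.T1_div F h ω
  have key := CH_vec_const F.isLaw (F.bcl w C g) (F.blab (w + K) C g) (c := 2) ?_
  · norm_num at key
    refine le_trans ?_ key
    refine CH_mono_left h0 ?_
    intro ω ω' _ _ hh
    have a1 : F.bcl w C g ω = F.bcl w C g ω' := (Prod.ext_iff.mp hh).1
    obtain ⟨b1, b2, -, b3, b4⟩ := split_lab F (Prod.ext_iff.mp hh).2
    unfold Fam.blab
    rw [hT1 ω, hT1 ω', b1, b2, a1, b3, b4]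
  · intro ω ω' _ _ hW i
    obtain ⟨b1, -, b2, b3, -⟩ := split_lab F hW
    have c1 := T1_box F h C g ω
    have c2 := T1_box F h C g ω'
    have c0 : F.T1 w ω = F.T1 w ω' := by rw [hT1, hT1, b1]
    have c3 : (F.box w C g).T1 K ω = (F.box w C g).T1 K ω' := by
      rw [b1, c0] at c1
      omega
    have d1 := bcl_add F h C g ω i
    have d2 := bcl_add F h C g ω' i
    rw [b2, b3, c3] at d1
    have hx : ∀ ω'', 0 ≤ fl K ((F.box w C g).x1 K ω'') i ∧
        ((fl K ((F.box w C g).x1 K ω'') i : ℤ) : ℝ) < 2 * 2 ^ K := by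
      intro ω''
      have f1 := X_cell F h C g ω'' i
      have e2 : fl K ((F.box w C g).x1 K ω'') i =
        ⌊2 ^ K * ((F.box w C g).u ω'' i + ((F.box w C g).T1 K ω'' : ℝ) / 2 ^ K *
        (F.box w C g).d ω'' i)⌋ := rfl
      have g1 := u_mem F w C g ω'' i
      have g2 := d_mem F w C g ω'' i
      have g3 : 0 ≤ ((F.box w C g).T1 K ω'' : ℝ) / 2 ^ K * (F.box w C g).d ω'' i :=
        mul_nonneg (by positivity) g2.1
      constructor
      · rw [e2]
        exact Int.floor_nonneg.mpr (mul_nonneg (by positivity) (by linarith [g1.1]))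
      · have e1 : (F.box w C g).X K ω'' i = ⌊2 ^ K * (F.box w C g).x ω'' i⌋ := rfl
        have g4 := x_mem F w C g ω'' i
        have g5 : (((F.box w C g).X K ω'' i : ℤ) : ℝ) ≤ 2 ^ K * (F.box w C g).x ω'' i := by
          rw [e1]; exact Int.floor_le _
        have g6 : ((fl K ((F.box w C g).x1 K ω'') i : ℤ) : ℝ) ≤
            (((F.box w C g).X K ω'' i : ℤ) : ℝ) := by exact_mod_cast f1.1
        have g7 : (2 : ℝ) ^ K * (F.box w C g).x ω'' i < 2 ^ K * 2 :=
          mul_lt_mul_of_pos_left g4.2 (by positivity)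
        linarith
    have k1 := hx ω
    have k2 := hx ω'
    have k3 : (2 : ℤ) ^ K * (F.bcl w C g ω i - F.bcl w C g ω' i) =
        fl K ((F.box w C g).x1 K ω') i - fl K ((F.box w C g).x1 K ω) i := by
      linarith
    have k4 : (2 : ℝ) ^ K * ((F.bcl w C g ω i - F.bcl w C g ω' i : ℤ) : ℝ) =
        ((fl K ((F.box w C g).x1 K ω') i : ℤ) : ℝ) -
        ((fl K ((F.box w C g).x1 K ω) i : ℤ) : ℝ) := by
      exact_mod_cast k3
    have p2 : (0 : ℝ) < 2 ^ K := by positivity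
    have n1 : (0 : ℝ) ≤ ((fl K ((F.box w C g).x1 K ω) i : ℤ) : ℝ) := by exact_mod_cast k1.1
    have n2 : (0 : ℝ) ≤ ((fl K ((F.box w C g).x1 K ω') i : ℤ) : ℝ) := by exact_mod_cast k2.1
    obtain ⟨y, hy⟩ : ∃ y : ℝ, y = ((F.bcl w C g ω i - F.bcl w C g ω' i : ℤ) : ℝ) :=
      ⟨_, rfl⟩
    rw [← hy] at k4 ⊢
    rw [abs_le]
    constructor
    · by_contra hc
      push Not at hc
      have : (2 : ℝ) ^ K * y < 2 ^ K * (-2) := mul_lt_mul_of_pos_left hc p2
      linarith [k1.2]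
    · by_contra hc
      push Not at hc
      have : (2 : ℝ) ^ K * 2 < 2 ^ K * y := mul_lt_mul_of_pos_left hc p2
      linarith [k2.2]

/-- (X1) The position in the box given the cell of the position. -/
theorem CH_X_bX (F : Fam m J) {w K : ℕ} (hw : w ≤ J) (C : Crd m κ) (g : F.Ω → κ) :
    CH F.p ((F.box w C g).X K)
      (fun ω => (F.bX C g (w + K) ω, (F.T ω, F.blab w C g ω))) ≤ m * Real.log 3 := by
  have key := CH_vec_const F.isLaw ((F.box w C g).X K)
    (fun ω => (F.bX C g (w + K) ω, (F.T ω, F.blab w C g ω))) (c := 1) ?_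
  · norm_num at key
    exact key
  · intro ω ω' _ _ hW i
    have h1 := Prod.ext_iff.mp hW
    have h2 := Prod.ext_iff.mp h1.2
    simp only at h1 h2
    obtain ⟨-, -, b2, b3, -⟩ := split_lab F h2.2
    have e2 : (F.box w C g).t ω = (F.box w C g).t ω' := by
      change ((F.T ω % 2 ^ (J - w) : ℕ) : ℝ) / 2 ^ (J - w) =
        ((F.T ω' % 2 ^ (J - w) : ℕ) : ℝ) / 2 ^ (J - w)
      rw [h2.1]
    have f1 := box_x F hw C g ω i
    have f2 := box_x F hw C g ω' i
    rw [b2, b3, e2] at f1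
    have g0 : ⌊2 ^ (w + K) * C.L (g ω) (F.x ω) i⌋ =
      ⌊2 ^ (w + K) * C.L (g ω') (F.x ω') i⌋ := congrFun h1.1 i
    refine floor_near g0 ?_
    rw [pow_add]
    linear_combination (-(2 : ℝ) ^ K) * f1 + (2 : ℝ) ^ K * f2

/-- (X2) The cell of the position given the position in the box. -/
theorem CH_bX_X (F : Fam m J) {w K : ℕ} (hw : w ≤ J) (C : Crd m κ) (g : F.Ω → κ) :
    CH F.p (F.bX C g (w + K))
      (fun ω => ((F.box w C g).X K ω, (F.T ω, F.blab w C g ω))) ≤ m * Real.log 3 := by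
  have key := CH_vec_const F.isLaw (F.bX C g (w + K))
    (fun ω => ((F.box w C g).X K ω, (F.T ω, F.blab w C g ω))) (c := 1) ?_
  · norm_num at key
    exact key
  · intro ω ω' _ _ hW i
    have h1 := Prod.ext_iff.mp hW
    have h2 := Prod.ext_iff.mp h1.2
    simp only at h1 h2
    obtain ⟨-, -, b2, b3, -⟩ := split_lab F h2.2
    have e2 : (F.box w C g).t ω = (F.box w C g).t ω' := by
      change ((F.T ω % 2 ^ (J - w) : ℕ) : ℝ) / 2 ^ (J - w) =
        ((F.T ω' % 2 ^ (J - w) : ℕ) : ℝ) / 2 ^ (J - w)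
      rw [h2.1]
    have f1 := box_x F hw C g ω i
    have f2 := box_x F hw C g ω' i
    rw [b2, b3, e2] at f1
    have g0 : ⌊2 ^ K * (F.box w C g).x ω i⌋ = ⌊2 ^ K * (F.box w C g).x ω' i⌋ :=
      congrFun h1.1 i
    refine floor_near g0 ?_
    rw [pow_add]
    linear_combination (2 : ℝ) ^ K * f1 - (2 : ℝ) ^ K * f2

/-- (X8) The first cell has boundedly many values. -/
theorem CH_X_zero {S : Type} (F : Fam m J) (w : ℕ) (C : Crd m κ) (g : F.Ω → κ)
    (W : F.Ω → S) : CH F.p ((F.box w C g).X 0) W ≤ m * Real.log 3 := by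
  have key := CH_vec_const F.isLaw ((F.box w C g).X 0) W (c := 1) ?_
  · norm_num at key
    exact key
  · intro ω ω' _ _ _ i
    have e : ∀ ω'', 0 ≤ (F.box w C g).X 0 ω'' i ∧ (F.box w C g).X 0 ω'' i ≤ 1 := by
      intro ω''
      have h := x_mem F w C g ω'' i
      have e1 : (F.box w C g).X 0 ω'' i = ⌊2 ^ 0 * (F.box w C g).x ω'' i⌋ := rfl
      rw [e1, pow_zero, one_mul]
      constructor
      · exact Int.floor_nonneg.mpr h.1
      · have : ⌊(F.box w C g).x ω'' i⌋ < 2 := Int.floor_lt.mpr (by exact_mod_cast h.2)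
        omega
    have h1 := e ω
    have h2 := e ω'
    have h3 : |(F.box w C g).X 0 ω i - (F.box w C g).X 0 ω' i| ≤ 1 := by
      rw [abs_le]
      constructor <;> omega
    exact_mod_cast h3

/-- The entropy of the positions of the box family. -/
theorem CH_box_W (F : Fam m J) (w K : ℕ) (C : Crd m κ) (g : F.Ω → κ) :
    CH F.p ((F.box w C g).X K) (fun ω => (F.T ω, F.blab w C g ω)) =
      CH (F.box w C g).p ((F.box w C g).X K) (F.box w C g).W := by
  refine CH_congr F.isLaw.nonneg ?_ ?_ ?_ ?_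
  · intro ω ω' _ _ h
    exact (Prod.ext_iff.mp h).1
  · intro ω ω' _ _ h
    exact (Prod.ext_iff.mp h).1
  · intro ω ω' _ _ h
    have a1 := Prod.ext_iff.mp h
    simp only at a1
    refine Prod.ext ?_ a1.2
    change F.T ω % 2 ^ (J - w) = F.T ω' % 2 ^ (J - w)
    rw [a1.1]
  · intro ω ω' _ _ h
    have a1 := Prod.ext_iff.mp h
    have a2 : F.T ω % 2 ^ (J - w) = F.T ω' % 2 ^ (J - w) := a1.1
    have a3 : F.blab w C g ω = F.blab w C g ω' := a1.2
    have a4 : F.T1 w ω = F.T1 w ω' :=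
      (Prod.ext_iff.mp (Prod.ext_iff.mp (Prod.ext_iff.mp a3).1).1).1
    exact Prod.ext (by
      change F.T ω = F.T ω'
      rw [Plk.T_split F w ω, Plk.T_split F w ω', a4, a2]) a3

theorem L_zero (C : Crd m κ) (k : κ) (i : Fin m) : C.L k (fun _ => 0) i = 0 := by
  have h := C.lin k (fun _ => 0) (fun _ => 0) 1 i
  have e : (fun j : Fin m => (fun _ : Fin m => (0 : ℝ)) j + 1 * (fun _ : Fin m => (0 : ℝ)) j) =
      fun _ => 0 := by
    funext j
    simp
  rw [e] at h
  linarith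

theorem L_smul (C : Crd m κ) (k : κ) (t : ℝ) (x : Fin m → ℝ) (i : Fin m) :
    C.L k (fun j => t * x j) i = t * C.L k x i := by
  have h := C.lin k (fun _ => 0) x t i
  have e : (fun j : Fin m => (fun _ : Fin m => (0 : ℝ)) j + t * x j) = fun j => t * x j := by
    funext j
    simp
  rw [e, L_zero] at h
  linarith

/-- (X3) The cell in the coordinates given the cell of the position. -/
theorem CH_bX_le (F : Fam m J) {j lam : ℕ} {C : Crd m κ} {b : ℝ} (hC : C.Bd lam b)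
    (g : F.Ω → κ) :
    CH F.p (F.bX C g j) (fun ω => (F.X (j + lam) ω, g ω)) ≤ m * Real.log (2 * b + 3) := by
  have key := CH_vec_const F.isLaw (F.bX C g j) (fun ω => (F.X (j + lam) ω, g ω))
    (c := b + 1) ?_
  · have e : 2 * (b + 1) + 1 = 2 * b + 3 := by ring
    rwa [e] at key
  · intro ω ω' _ _ hW i
    have h1 := Prod.ext_iff.mp hW
    simp only at h1
    have g0 : ∀ l, |2 ^ (j + lam) * F.x ω l - 2 ^ (j + lam) * F.x ω' l| ≤ 1 := fun l =>
      abs_sub_lt_of_floor (congrFun h1.1 l)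
    refine floor_sub_lt ?_
    rw [← h1.2]
    have h2 := hC (g ω) (fun l => 2 ^ (j + lam) * F.x ω l) (fun l => 2 ^ (j + lam) * F.x ω' l)
      g0 i
    rw [L_smul, L_smul, ← mul_sub, abs_mul, abs_of_nonneg (by positivity), pow_add] at h2
    rw [← mul_sub, abs_mul, abs_of_nonneg (by positivity)]
    have p2 : (0 : ℝ) < 2 ^ lam := by positivity
    have h3 : 2 ^ j * |C.L (g ω) (F.x ω) i - C.L (g ω) (F.x ω') i| * 2 ^ lam ≤ b * 2 ^ lam := by
      linarith
    exact le_of_mul_le_mul_right h3 p2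

/-- (L) The position in the box given the exact point and the label. -/
theorem CH_X_pt (F : Fam m J) {w K lam r : ℕ} (hw : w ≤ J) (hr : w + K + lam ≤ r)
    {C : Crd m κ} {b : ℝ} (hC : C.Bd lam b) (g : F.Ω → κ) :
    CH F.p ((F.box w C g).X K) (fun ω => (F.X r ω, (F.T ω, F.blab w C g ω))) ≤
      m * Real.log (2 * b + 3) + m * Real.log 3 := by
  have h0 := F.isLaw.nonneg
  have h1 := CH_le_add h0 ((F.box w C g).X K) (F.bX C g (w + K))
    (fun ω => (F.X r ω, (F.T ω, F.blab w C g ω)))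
  have h2 := CH_mono_cond h0 (X := F.bX C g (w + K))
    (W' := fun ω => (F.X r ω, (F.T ω, F.blab w C g ω)))
    (W := fun ω => (F.X (w + K + lam) ω, g ω))
    (fun ω ω' _ _ h => by
      have a1 := Prod.ext_iff.mp h
      have a2 := split_lab F (Prod.ext_iff.mp a1.2).2
      exact Prod.ext (Pool.STK.B58.fl_fine hr a1.1) a2.2.1)
  have h3 := CH_bX_le F (j := w + K) hC g
  have h4 := CH_mono_cond h0 (X := (F.box w C g).X K)
    (W' := fun ω => (F.bX C g (w + K) ω, (F.X r ω, (F.T ω, F.blab w C g ω))))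
    (W := fun ω => (F.bX C g (w + K) ω, (F.T ω, F.blab w C g ω)))
    (fun ω ω' _ _ h => by
      have a1 := Prod.ext_iff.mp h
      exact Prod.ext a1.1 (Prod.ext_iff.mp a1.2).2)
  have h5 := CH_X_bX F (K := K) hw C g
  linarith

end Box

end Pool.KA
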