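import Pool.Agent.H64.K3.Box
import Pool.Agent.H20.K2.CPY
import Pool.Agent.H13.K2S.Lin

/-!
# Joins of contexts

`jn b n` is the list of the contexts `b 0, ..., b n`. It is nested in `n`. If every `b i` is a
function of the line and of the window of length `2 ^ (-w i)`, with `w` increasing, then `jn b n` is
a function of the line and of the window of length `2 ^ (-w n)`. The informations of the steps about
one fixed variable add up to at most the entropy of the variable.
-/

set_option autoImplicit false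

namespace Pool.KA

open Finset Real
open Pool.Agent.H49.Ent Pool.Agent.H32.Dense Pool.STK Pool.KSAT

variable {Ω S T U V : Type}

/-- The contexts up to `n`. -/
def jn (b : ℕ → Ω → S) (n : ℕ) (ω : Ω) (i : ℕ) : Option S := if i ≤ n then some (b i ω) else none

namespace Join

theorem jn_iff (b : ℕ → Ω → S) (n : ℕ) (ω ω' : Ω) :
    jn b n ω = jn b n ω' ↔ ∀ i ≤ n, b i ω = b i ω' := by
  constructor
  · intro h i hi
    have h1 := congrFun h i
    unfold jn at h1
    rw [if_pos hi, if_pos hi] at h1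
    exact Option.some_injective _ h1
  · intro h
    funext i
    unfold jn
    by_cases hi : i ≤ n
    · rw [if_pos hi, if_pos hi, h i hi]
    · rw [if_neg hi, if_neg hi]

/-- The join is nested. -/
theorem jn_mono {p : Ω → ℝ} (b : ℕ → Ω → S) {n n' : ℕ} (h : n ≤ n') : Det p (jn b n') (jn b n) :=
  fun ω ω' _ _ e => (jn_iff b n ω ω').2 fun i hi => (jn_iff b n' ω ω').1 e i (hi.trans h)

/-- The members are functions of the join. -/
theorem jn_mem {p : Ω → ℝ} (b : ℕ → Ω → S) {i n : ℕ} (h : i ≤ n) : Det p (jn b n) (b i) :=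
  fun ω ω' _ _ e => (jn_iff b n ω ω').1 e i h

/-- The join is a function of everything which determines the members. -/
theorem jn_of {p : Ω → ℝ} {b : ℕ → Ω → S} {n : ℕ} {Y : Ω → T} (h : ∀ i ≤ n, Det p Y (b i)) :
    Det p Y (jn b n) :=
  fun ω ω' a c e => (jn_iff b n ω ω').2 fun i hi => h i hi ω ω' a c e

/-- One step of the join. -/
theorem jn_succ {p : Ω → ℝ} (b : ℕ → Ω → S) (n : ℕ) :
    Det p (fun ω => (b (n + 1) ω, jn b n ω)) (jn b (n + 1)) := by
  intro ω ω' _ _ e
  have e1 := Prod.ext_iff.mp e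
  refine (jn_iff b (n + 1) ω ω').2 fun i hi => ?_
  rcases Nat.lt_or_ge i (n + 1) with h | h
  · exact (jn_iff b n ω ω').1 e1.2 i (by omega)
  · have : i = n + 1 := by omega
    rw [this]
    exact e1.1

section Ent

variable [Fintype Ω] {p : Ω → ℝ}

/-- The entropy of a join is at most the sum of the entropies. -/
theorem CH_jn_le (hp : ∀ ω, 0 ≤ p ω) (b : ℕ → Ω → S) (n : ℕ) (Y : Ω → T) :
    CH p (jn b n) Y ≤ ∑ i ∈ range (n + 1), CH p (b i) Y := by
  induction n with
  | zero =>
    rw [Finset.sum_range_one]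
    refine CH_mono_left hp fun ω ω' _ _ e => ?_
    refine (jn_iff b 0 ω ω').2 fun i hi => ?_
    have : i = 0 := by omega
    rw [this]
    exact (Prod.ext_iff.mp e).1
  | succ n ih =>
    rw [Finset.sum_range_succ]
    have h1 : CH p (jn b (n + 1)) Y ≤ CH p (fun ω => (b (n + 1) ω, jn b n ω)) Y := by
      refine CH_mono_left hp fun ω ω' a c e => ?_
      exact jn_succ (p := p) b n ω ω' a c (Prod.ext_iff.mp e).1
    have h2 := CH_subadd hp (b (n + 1)) (jn b n) Y
    linarith

/-- Telescoping of the informations about a fixed variable, for nested labels. -/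
theorem sum_info (hp : ∀ ω, 0 ≤ p ω) {f : ℕ → Ω → S} (v : Ω → V) (N : ℕ) :
    ∑ n ∈ range N, (CH p v (f n) - CH p v (f (n + 1))) ≤ CH p v (f 0) := by
  rw [Finset.sum_range_sub' (fun n => CH p v (f n)) N]
  have := CH_nonneg hp v (f N)
  linarith

/-- The informations are nonnegative. -/
theorem info_nonneg (hp : ∀ ω, 0 ≤ p ω) {f : ℕ → Ω → S} (hf : ∀ n, Det p (f (n + 1)) (f n))
    (v : Ω → V) (n : ℕ) : 0 ≤ CH p v (f n) - CH p v (f (n + 1)) := by
  have := CH_mono_cond hp (X := v) (hf n)
  linarith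

open Classical in
/-- All but few steps are good. -/
theorem card_bad (hp : ∀ ω, 0 ≤ p ω) {f : ℕ → Ω → S} (hf : ∀ n, Det p (f (n + 1)) (f n))
    (v : Ω → V) (N : ℕ) {ε : ℝ} :
    ((range N).filter fun n => ε ≤ CH p v (f n) - CH p v (f (n + 1))).card * ε ≤
      CH p v (f 0) := by
  refine le_trans ?_ (sum_info hp (f := f) v N)
  rw [← nsmul_eq_mul, ← Finset.sum_const]
  refine le_trans (Finset.sum_le_sum (g := fun n => CH p v (f n) - CH p v (f (n + 1))) ?_) ?_
  · intro n hn
    exact (Finset.mem_filter.mp hn).2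
  · exact Finset.sum_le_sum_of_subset_of_nonneg (Finset.filter_subset _ _)
      fun n _ _ => info_nonneg hp hf v n

/-- Extra labels which the next context determines do not cost more information. -/
theorem info_mono (hp : ∀ ω, 0 ≤ p ω) {B : Ω → S} {B' : Ω → T} {C : Ω → U} (v : Ω → V)
    (hC : Det p B' (fun ω => (C ω, B ω))) :
    CH p v B - CH p v (fun ω => (C ω, B ω)) ≤ CH p v B - CH p v B' := by
  have := CH_mono_cond hp (X := v) hC
  linarith

end Ent

/-! ### Windows -/

section Win

variable {m J : ℕ}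

/-- The window determines the longer windows. -/
theorem slam_mono (F : Fam m J) {w w' : ℕ} (h : w ≤ w') (h' : w' ≤ J) :
    Det F.p (slam F w') (slam F w) := by
  intro ω ω' _ _ e
  have e1 := Prod.ext_iff.mp e
  have e2 := Prod.ext_iff.mp e1.2
  have e3 : F.T1 w' ω = F.T1 w' ω' := e2.2
  have e4 : F.T1 w ω = F.T1 w ω' := by
    obtain ⟨K, rfl⟩ := Nat.exists_eq_add_of_le h
    rw [T1_div F h' ω, T1_div F h' ω', e3]
  exact Prod.ext e1.1 (Prod.ext e2.1 e4)

/-- The join of the contexts of longer windows is a function of the line and of the window. -/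
theorem jn_slam (F : Fam m J) {b : ℕ → F.Ω → S} {w : ℕ → ℕ} {n : ℕ} (hw : ∀ i ≤ n, w i ≤ w n)
    (hJ : w n ≤ J) (hb : ∀ i ≤ n, Det F.p (slam F (w i)) (b i)) :
    Det F.p (slam F (w n)) (jn b n) :=
  jn_of fun i hi ω ω' a c e => hb i hi ω ω' a c (slam_mono F (hw i hi) hJ ω ω' a c e)

/-- The label of a box is a function of the line and of the window. -/
theorem blab_slam {κ : Type} (F : Fam m J) {w w' : ℕ} (h : w ≤ w') (h' : w' ≤ J) {C : Crd m κ}
    {g : F.Ω → κ} (hg : Det F.p (slam F w') g) :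
    Det F.p (slam F w') (F.blab w C g) := by
  intro ω ω' a c e
  have e0 := slam_mono F h h' ω ω' a c e
  have e1 := Prod.ext_iff.mp e0
  have e2 := Prod.ext_iff.mp e1.2
  exact (Box.blab_det F e1.1 e2.2 (hg ω ω' a c e) e2.1).1

/-! ### Two samples in one window -/

/-- Functions of the line and of the window agree at the two samples. -/
theorem cpy_eq {p : Ω → ℝ} [Fintype Ω] (hp : IsLaw p) {c : Ω → S} {f : Ω → T}
    (hf : Det p c f) {w : Ω × Ω} (hw : 0 < cpy p c w) : f w.1 = f w.2 := by
  obtain ⟨h1, h2, h3⟩ := (cpy_thm Ω S p hp c).2.2.2.2.1 w hw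
  exact hf _ _ h1 h2 h3

/-- The informations at the second sample about functions of the line and of the window. -/
theorem cpy_info {p : Ω → ℝ} [Fintype Ω] (hp : IsLaw p) {c : Ω → S} {v : Ω → V} {B : Ω → T}
    (hv : Det p c v) (hB : Det p c B) (C : Ω → U) :
    CH (cpy p c) (fun w => v w.1) (fun w => (C w.2, B w.1)) =
      CH p v (fun ω => (C ω, B ω)) := by
  have hq := (cpy_thm Ω S p hp c).1
  rw [← (cpy_thm Ω S p hp c).2.2.1.CH v (fun ω => (C ω, B ω))]
  refine CH_congr hq.nonneg ?_ ?_ ?_ ?_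
  · intro w w' h h' e
    have e1 := (Prod.ext_iff.mp e).1
    simp only at e1
    change v w.2 = v w'.2
    rw [← cpy_eq hp hv h, ← cpy_eq hp hv h', e1]
  · intro w w' h h' e
    have e1 : v w.2 = v w'.2 := (Prod.ext_iff.mp e).1
    change v w.1 = v w'.1
    rw [cpy_eq hp hv h, cpy_eq hp hv h', e1]
  · intro w w' h h' e
    have e1 := Prod.ext_iff.mp e
    simp only at e1
    refine Prod.ext e1.1 ?_
    change B w.2 = B w'.2
    rw [← cpy_eq hp hB h, ← cpy_eq hp hB h', e1.2]
  · intro w w' h h' e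
    have e1 : C w.2 = C w'.2 := (Prod.ext_iff.mp e).1
    have e2 : B w.2 = B w'.2 := (Prod.ext_iff.mp e).2
    refine Prod.ext e1 ?_
    change B w.1 = B w'.1
    rw [cpy_eq hp hB h, cpy_eq hp hB h', e2]

/-- **Two samples.** The information of a label of the second sample together with a variable `s`
of the first sample (for instance the next digits of its time) about a function `v` of the line and
of the window: the information at one sample, plus the deficit of `s` given the line and the
window. -/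
theorem cpy_two {p : Ω → ℝ} [Fintype Ω] (hp : IsLaw p) {c : Ω → S} {v : Ω → V} {B : Ω → T}
    (hv : Det p c v) (hB : Det p c B) (C : Ω → U) {W : Type} (s : Ω → W) {L : ℝ}
    (hs : CH (cpy p c) (fun w => s w.1) (fun w => (C w.2, B w.1)) ≤ L) :
    CH (cpy p c) (fun w => v w.1) (fun w => B w.1) -
      CH (cpy p c) (fun w => v w.1) (fun w => (s w.1, (C w.2, B w.1))) ≤
      (CH p v B - CH p v (fun ω => (C ω, B ω))) + (L - CH p s c) := by
  have hq := (cpy_thm Ω S p hp c).1
  have h1 := cpy_info hp hv hB C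
  have h2 := (cpy_thm Ω S p hp c).2.1.CH v B
  have h2' : CH (cpy p c) (fun w => v w.1) (fun w => B w.1) = CH p v B := h2
  -- the symmetric form of the information
  have h3 := CH_chain hq.nonneg (fun w => v w.1) (fun w : Ω × Ω => s w.1)
    (fun w => (C w.2, B w.1))
  have h4 := CH_chain hq.nonneg (fun w : Ω × Ω => s w.1) (fun w => v w.1)
    (fun w => (C w.2, B w.1))
  have h5 : CH (cpy p c) (fun w => (v w.1, s w.1)) (fun w => (C w.2, B w.1)) =
      CH (cpy p c) (fun w => (s w.1, v w.1)) (fun w => (C w.2, B w.1)) := by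
    refine CH_congr hq.nonneg ?_ ?_ (fun _ _ _ _ e => e) (fun _ _ _ _ e => e)
    · intro w w' _ _ e
      have e1 := Prod.ext_iff.mp (Prod.ext_iff.mp e).1
      exact Prod.ext e1.2 e1.1
    · intro w w' _ _ e
      have e1 := Prod.ext_iff.mp (Prod.ext_iff.mp e).1
      exact Prod.ext e1.2 e1.1
  -- `s` given everything
  have h6 : CH p s c ≤ CH (cpy p c) (fun w => s w.1) (fun w => (v w.1, (C w.2, B w.1))) := by
    have h7 := (cpy_thm Ω S p hp c).2.2.2.2.2 W (U × S) s (fun ω => (C ω, c ω))
    rw [← h7]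
    refine CH_mono_cond hq.nonneg ?_
    intro w w' h h' e
    have e1 := Prod.ext_iff.mp e
    have e2 := Prod.ext_iff.mp e1.1
    simp only at e1 e2
    have k1 := ((cpy_thm Ω S p hp c).2.2.2.2.1 w h)
    have k2 := ((cpy_thm Ω S p hp c).2.2.2.2.1 w' h')
    exact Prod.ext (hv _ _ k1.1 k2.1 e1.2) (Prod.ext e2.1 (hB _ _ k1.1 k2.1 e1.2))
  rw [h2']
  linarith

/-- The next `K` digits of the time of the first sample: their entropy given any label which
contains the window. -/
theorem T1_le {Ω' : Type} [Fintype Ω'] {q : Ω' → ℝ} (hq : IsLaw q) {m J : ℕ}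
    (F : Fam m J) {w K : ℕ} (h : w + K ≤ J) (pr : Ω' → F.Ω) (W : Ω' → S)
    (hW : Det q W (fun ω' => F.T1 w (pr ω'))) :
    CH q (fun ω' => F.T1 (w + K) (pr ω')) W ≤ K * Real.log 2 := by
  classical
  have h0 := hq.nonneg
  have h1 : CH q (fun ω' => F.T1 (w + K) (pr ω')) W ≤
      CH q (fun ω' => F.T1 (w + K) (pr ω')) (fun ω' => F.T1 w (pr ω')) :=
    CH_mono_cond h0 hW
  refine h1.trans ?_
  refine (CH_le_card h0 hq.sum_one (fun ω' => F.T1 (w + K) (pr ω')) (fun ω' => F.T1 w (pr ω'))
    (fun a => Finset.Ico (2 ^ K * a) (2 ^ K * a + 2 ^ K)) ?_).trans ?_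
  · intro ω' _
    rw [Finset.mem_Ico, T1_div F h (pr ω')]
    have a1 := Nat.div_add_mod (F.T1 (w + K) (pr ω')) (2 ^ K)
    have a2 := Nat.mod_lt (F.T1 (w + K) (pr ω')) (show 0 < 2 ^ K by positivity)
    omega
  · have e : ∀ a : ℕ, (Finset.Ico (2 ^ K * a) (2 ^ K * a + 2 ^ K)).card = 2 ^ K := by
      intro a
      rw [Nat.card_Ico, Nat.add_sub_cancel_left]
    simp only [e]
    push_cast
    rw [Ex_const hq.sum_one, Real.log_pow]

/-- **Two samples in one window.** `v` (a velocity block) is nearly independent of the label `C` of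
the second sample together with the next `K` digits of the time of the first sample. -/
theorem two_sided (F : Fam m J) {w K : ℕ} (h : w + K ≤ J) {v : F.Ω → V} {B : F.Ω → T}
    (hv : Det F.p (slam F w) v) (hB : Det F.p (slam F w) B)
    (hT : Det F.p B (F.T1 w)) (C : F.Ω → U) :
    CH (cpy F.p (slam F w)) (fun o => v o.1) (fun o => B o.1) -
      CH (cpy F.p (slam F w)) (fun o => v o.1)
        (fun o => (F.T1 (w + K) o.1, (C o.2, B o.1))) ≤
      (CH F.p v B - CH F.p v (fun ω => (C ω, B ω))) +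
        (K * Real.log 2 - CH F.p (F.T1 (w + K)) (slam F w)) := by
  have hq := (cpy_thm F.Ω _ F.p F.isLaw (slam F w)).1
  refine cpy_two F.isLaw hv hB C (F.T1 (w + K)) ?_
  refine T1_le hq F h (fun o : F.Ω × F.Ω => o.1) _ ?_
  intro o o' a c e
  have k1 := ((cpy_thm F.Ω _ F.p F.isLaw (slam F w)).2.2.2.2.1 o a)
  have k2 := ((cpy_thm F.Ω _ F.p F.isLaw (slam F w)).2.2.2.2.1 o' c)
  exact hT _ _ k1.1 k2.1 (Prod.ext_iff.mp e).2

/-- The deficits of the blocks of time digits add up to at most the time deficit. -/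
theorem time_sum (F : Fam m J) {e : ℝ} (he : F.Tm e) (K : ℕ) {N : ℕ} (hN : N * K ≤ J) :
    ∑ n ∈ range N, (K * Real.log 2 - CH F.p (F.T1 (n * K + K)) (slam F (n * K))) ≤ e := by
  have h0 := F.isLaw.nonneg
  -- telescoping
  have tel : ∀ n, n ≤ N → ∑ i ∈ range n, CH F.p (F.T1 (i * K + K)) (slam F (i * K)) =
      CH F.p (F.T1 (n * K)) (fun ω => (F.l ω, F.Z ω)) := by
    intro n
    induction n with
    | zero =>
      intro _
      rw [Finset.sum_range_zero, Nat.zero_mul]
      refine (CH_eq_zero h0 fun ω ω' _ _ _ => ?_).symm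
      have e0 : ∀ ω, F.T1 0 ω = 0 := fun ω => Nat.div_eq_of_lt (by
        have := F.tim ω
        simpa using this)
      rw [e0, e0]
    | succ n ih =>
      intro hn
      have hnK : n * K + K ≤ J := by
        have : (n + 1) * K ≤ N * K := Nat.mul_le_mul_right K hn
        have e1 : (n + 1) * K = n * K + K := by ring
        omega
      rw [Finset.sum_range_succ, ih (by omega)]
      have c1 := CH_chain h0 (F.T1 (n * K + K)) (F.T1 (n * K)) (fun ω => (F.l ω, F.Z ω))
      have e1 : (n + 1) * K = n * K + K := by ring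
      rw [e1]
      have c2 : CH F.p (fun ω => (F.T1 (n * K + K) ω, F.T1 (n * K) ω))
          (fun ω => (F.l ω, F.Z ω)) =
          CH F.p (F.T1 (n * K + K)) (fun ω => (F.l ω, F.Z ω)) := by
        refine CH_congr h0 ?_ ?_ (fun _ _ _ _ e => e) (fun _ _ _ _ e => e)
        · intro ω ω' _ _ e
          exact (Prod.ext_iff.mp (Prod.ext_iff.mp e).1).1
        · intro ω ω' _ _ e
          have e2 : F.T1 (n * K + K) ω = F.T1 (n * K + K) ω' := (Prod.ext_iff.mp e).1
          refine Prod.ext e2 ?_
          change F.T1 (n * K) ω = F.T1 (n * K) ω'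
          rw [T1_div F hnK ω, T1_div F hnK ω', e2]
      have c3 : CH F.p (F.T1 (n * K + K)) (fun ω => (F.T1 (n * K) ω, (F.l ω, F.Z ω))) =
          CH F.p (F.T1 (n * K + K)) (slam F (n * K)) := by
        refine CH_congr h0 (fun _ _ _ _ e => (Prod.ext_iff.mp e).1)
          (fun _ _ _ _ e => (Prod.ext_iff.mp e).1) ?_ ?_
        · intro ω ω' _ _ e
          have e1 := Prod.ext_iff.mp e
          have e2 := Prod.ext_iff.mp e1.2
          exact Prod.ext e2.1 (Prod.ext e2.2 e1.1)
        · intro ω ω' _ _ e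
          have e1 := Prod.ext_iff.mp e
          have e2 := Prod.ext_iff.mp e1.2
          exact Prod.ext e2.2 (Prod.ext e1.1 e2.1)
      rw [c2] at c1
      rw [c3] at c1
      linarith
  rw [Finset.sum_sub_distrib, tel N le_rfl, Finset.sum_const, Finset.card_range, nsmul_eq_mul]
  unfold Fam.Tm at he
  have c1 := CH_le_add h0 F.T (F.T1 (N * K)) (fun ω => (F.l ω, F.Z ω))
  have c2 : CH F.p F.T (fun ω => (F.T1 (N * K) ω, (F.l ω, F.Z ω))) ≤
      ((J - N * K : ℕ) : ℝ) * Real.log 2 := by
    have e1 : N * K + (J - N * K) = J := by omega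
    have h1 := T1_le F.isLaw F (w := N * K) (K := J - N * K) (by omega)
      (fun ω : F.Ω => ω) (fun ω => (F.T1 (N * K) ω, (F.l ω, F.Z ω)))
      (fun _ _ _ _ e => (Prod.ext_iff.mp e).1)
    rw [e1] at h1
    have e2 : (fun ω : F.Ω => F.T1 J ω) = F.T := by
      funext ω
      unfold Fam.T1
      rw [Nat.sub_self, pow_zero, Nat.div_one]
    rw [e2] at h1
    exact h1
  rw [Nat.cast_sub hN] at c2
  push_cast at c2
  have e3 : (N : ℝ) * (K * Real.log 2) = N * K * Real.log 2 := by ring
  rw [e3]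
  linarith

end Win

end Join

end Pool.KA
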